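import Mathlib

namespace Pool.Agent.H.MP_97e2c3_nt

open Finset Nat

lemma v0 (j a : ℕ) : ∀ c, ∑ u ∈ range (a + 1), a.choose u * j.choose (c + u) =
    (j + a).choose (a + c) := by
  induction a with
  | zero => simp
  | succ a ih =>
    intro c
    have := Finset.sum_choose_succ_mul (R := ℕ) (fun u _ => j.choose (c + u)) a
    simp only [Nat.cast_id] at this
    rw [this, ih c]
    have h2 := ih (c + 1)
    simp only [add_assoc, add_comm 1] at h2 ⊢
    rw [h2, ← add_assoc j a 1, show a + (c + 1) = a + c + 1 by ring, Nat.choose_succ_succ']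

lemma tri (r a b : ℕ) : r.choose a * (r - a).choose b = r.choose b * (r - b).choose a := by
  have h1 := Nat.choose_mul (n := r) (k := a + b) (s := a) (by omega)
  have h2 := Nat.choose_mul (n := r) (k := a + b) (s := b) (by omega)
  rw [show a + b - a = b by omega] at h1
  rw [show a + b - b = a by omega] at h2
  rw [← h1, ← h2, Nat.choose_symm_add]

lemma nanj (i j l : ℕ) : ∑ u ∈ range (l + 1),
    l.choose u * (j.choose (i + u) * (j + l + (i + u)).choose (i + u)) =
    (j + l).choose (l + i) * (j + l + i).choose (l + i) := by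
  have h1 : ∀ u ∈ range (l + 1), l.choose u * (j.choose (i + u) * (j + l + (i + u)).choose (i + u))
      = ∑ t ∈ range (u + 1), (j + l + i).choose (i + t) * (l.choose t *
        ((l - t).choose (u - t) * j.choose (i + t + (u - t)))) := by
    intro u _
    rw [← add_assoc, add_comm i u, ← v0, mul_sum, mul_sum]
    refine sum_congr rfl fun t ht => ?_
    have ht' : t ≤ u := by simpa [Nat.lt_succ_iff] using ht
    rw [show i + t + (u - t) = u + i by omega, ← mul_assoc (l.choose t), ← Nat.choose_mul ht']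
    ring
  rw [sum_congr rfl h1, Finset.sum_range_diag_flip (l + 1) (fun t v =>
    (j + l + i).choose (i + t) * (l.choose t * ((l - t).choose v * j.choose (i + t + v)))),
    ← v0, sum_mul]
  refine sum_congr rfl fun t ht => ?_
  have ht' : t ≤ l := by simpa [Nat.lt_succ_iff] using ht
  rw [← mul_sum, ← mul_sum, show l + 1 - t = l - t + 1 by omega, v0,
    show l - t + (i + t) = l + i by omega]
  have := tri (j + l + i) (i + t) (l + i)
  rw [show j + l + i - (i + t) = j + (l - t) by omega, show j + l + i - (l + i) = j by omega] at this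
  rw [mul_left_comm, this]; ring

/-- basis functions -/
def D (l i j : ℕ) : ℤ := (j.choose i : ℤ) * ((j + l + i).choose i : ℤ)

def x (l j : ℕ) : ℤ := ((j + l).choose l : ℤ)

lemma sq_D (l i j : ℕ) : x l j ^ 2 * D l i j =
    ∑ u ∈ range (l + 1), (((l + i).choose i : ℤ) ^ 2 * l.choose u) * D l (i + u) j := by
  have := congrArg (Nat.cast : ℕ → ℤ) (nanj i j l)
  push_cast at this
  simp only [mul_assoc, D, x]
  rw [← mul_sum, this]
  rcases lt_or_ge j i with h | h
  · rw [Nat.choose_eq_zero_of_lt h, Nat.choose_eq_zero_of_lt (show j + l < l + i by omega)]; simp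
  · obtain ⟨k, rfl⟩ := Nat.exists_eq_add_of_le h
    have : ((i + k + l).choose l : ℚ) ^ 2 * (((i + k).choose i : ℚ) * (i + k + l + i).choose i) =
        ((l + i).choose i : ℚ) ^ 2 * ((i + k + l).choose (l + i) *
          (i + k + l + i).choose (l + i)) := by
      rw [Nat.cast_choose ℚ (by omega), Nat.cast_choose ℚ (by omega), Nat.cast_choose ℚ (by omega),
        Nat.cast_choose ℚ (by omega), Nat.cast_choose ℚ (by omega), Nat.cast_choose ℚ (by omega)]
      rw [show i + k + l - l = i + k by omega, show i + k - i = k by omega,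
        show i + k + l + i - i = i + k + l by omega, show l + i - i = l by omega,
        show i + k + l - (l + i) = k by omega, show i + k + l + i - (l + i) = i + k by omega]
      field_simp
    exact_mod_cast this

lemma x_D (l i j : ℕ) : x l j * D l i j =
    ((l + i).choose i : ℤ) * ((l + 2 * i).choose i * (j + l + i).choose (l + 2 * i)) := by
  simp only [D, x]
  rcases lt_or_ge j i with h | h
  · rw [Nat.choose_eq_zero_of_lt h,
      Nat.choose_eq_zero_of_lt (show j + l + i < l + 2 * i by omega)]; simp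
  · obtain ⟨k, rfl⟩ := Nat.exists_eq_add_of_le h
    have : ((i + k + l).choose l : ℚ) * (((i + k).choose i : ℚ) * (i + k + l + i).choose i) =
        ((l + i).choose i : ℚ) * ((l + 2 * i).choose i *
          (i + k + l + i).choose (l + 2 * i)) := by
      rw [Nat.cast_choose ℚ (by omega), Nat.cast_choose ℚ (by omega), Nat.cast_choose ℚ (by omega),
        Nat.cast_choose ℚ (by omega), Nat.cast_choose ℚ (by omega), Nat.cast_choose ℚ (by omega)]
      rw [show i + k + l - l = i + k by omega, show i + k - i = k by omega,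
        show i + k + l + i - i = i + k + l by omega, show l + i - i = l by omega,
        show l + 2 * i - i = l + i by omega, show i + k + l + i - (l + 2 * i) = k by omega]
      field_simp
    exact_mod_cast this

lemma c1 (n k : ℕ) : (n.choose (k + 1) : ℤ) * (k + 1) = n.choose k * (n - k) := by
  rcases lt_or_ge n k with h | h
  · rw [Nat.choose_eq_zero_of_lt h, Nat.choose_eq_zero_of_lt (show n < k + 1 by omega)]; simp
  · have := Nat.choose_succ_right_eq n k
    zify [h] at this; exact this

lemma c2 (n k : ℕ) : ((n + 1).choose (k + 1) : ℤ) * (k + 1) = n.choose k * (n + 1) := by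
  have := Nat.add_one_mul_choose_eq n k
  zify at this; linarith

lemma tel_even (l i J : ℕ) : ∑ j ∈ range J, (2 * j + l + 1 : ℤ) * D l i j =
    (i + 1) * (J.choose (i + 1) * (J + l + i).choose (i + 1)) := by
  induction J with
  | zero => simp
  | succ J ih =>
    rw [sum_range_succ, ih, show J + 1 + l + i = J + l + i + 1 by ring]
    have a1 := c1 J i
    have a2 := c2 J i
    have a3 := c1 (J + l + i) i
    have a4 := c2 (J + l + i) i
    simp only [D]
    apply mul_left_cancel₀ (show (i + 1 : ℤ) ≠ 0 by positivity)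
    push_cast at a3 a4
    linear_combination ((J + l + i).choose (i + 1) * (i + 1) : ℤ) * a1 +
      (J.choose i * (J - i) : ℤ) * a3 - ((J + l + i + 1).choose (i + 1) * (i + 1) : ℤ) * a2 -
      (J.choose i * (J + 1) : ℤ) * a4

lemma tel_odd (l i J : ℕ) : ∑ j ∈ range J, (-1) ^ j * (2 * j + l + 1 : ℤ) *
      (j + l + i).choose (l + 2 * i) =
    -(-1) ^ J * ((l + 2 * i + 1) * (J + l + i).choose (l + 2 * i + 1)) := by
  induction J with
  | zero =>
    rw [Nat.choose_eq_zero_of_lt (by omega)]; simp
  | succ J ih =>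
    rw [sum_range_succ, ih, show J + 1 + l + i = J + l + i + 1 by ring]
    have a3 := c1 (J + l + i) (l + 2 * i)
    have a4 := c2 (J + l + i) (l + 2 * i)
    push_cast at a3 a4
    rw [pow_succ]
    linear_combination (-(-1) ^ J : ℤ) * a3 - ((-1) ^ J : ℤ) * a4

lemma odd_val (l i m : ℕ) : ((l + 2 * i).choose i : ℤ) *
    ((l + 2 * i + 1) * (m + 1 + i).choose (l + 2 * i + 1)) =
    (m + 1) * ((m + 1 + i).choose i * m.choose (l + i)) := by
  have h1 := Nat.choose_mul (n := m + 1 + i) (k := l + 2 * i + 1) (s := i) (by omega)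
  rw [show m + 1 + i - i = m + 1 by omega, show l + 2 * i + 1 - i = l + i + 1 by omega] at h1
  have h2 := Nat.choose_mul_succ_eq (l + 2 * i) i
  rw [show l + 2 * i + 1 - i = l + i + 1 by omega] at h2
  have h3 := c2 m (l + i)
  zify at h1 h2
  push_cast at h3
  linear_combination ((m + 1 + i).choose (l + 2 * i + 1) : ℤ) * h2 + (l + i + 1 : ℤ) * h1 +
    ((m + 1 + i).choose i : ℤ) * h3

def N (l : ℕ) : AddSubmonoid (ℕ → ℤ) :=
  AddSubmonoid.closure {f | ∃ (g : ℤ) (i : ℕ), 2 ∣ g * (l + i).choose i ∧ f = fun j => g * D l i j}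

lemma sq_mem (l : ℕ) (f : ℕ → ℤ) (h : f ∈ N l) : (fun j => x l j ^ 2 * f j) ∈ N l := by
  induction h using AddSubmonoid.closure_induction with
  | mem f h =>
    obtain ⟨g, i, hg, rfl⟩ := h
    have : (fun j => x l j ^ 2 * (g * D l i j)) = ∑ u ∈ range (l + 1),
        fun j => (g * (((l + i).choose i : ℤ) ^ 2 * l.choose u)) * D l (i + u) j := by
      funext j
      rw [Finset.sum_apply, mul_left_comm, sq_D, mul_sum]
      exact sum_congr rfl fun u _ => by ring
    rw [this]
    refine sum_mem fun u _ => AddSubmonoid.subset_closure ⟨_, _, ?_, rfl⟩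
    obtain ⟨c, hc⟩ := hg
    exact ⟨c * (l + i).choose i * l.choose u * (l + (i + u)).choose (i + u), by
      linear_combination ((l + i).choose i * l.choose u * (l + (i + u)).choose (i + u) : ℤ) * hc⟩
  | zero => simp only [Pi.zero_apply, mul_zero, pow_zero, sub_self]; exact (N l).zero_mem
  | add a b _ _ ha hb => simp only [Pi.add_apply, mul_add]; exact (N l).add_mem ha hb

lemma pow_mem (l s : ℕ) : (fun j => x l j ^ (2 * s) - 1) ∈ N l := by
  induction s with
  | zero => simp only [Pi.zero_apply, mul_zero, pow_zero, sub_self]; exact (N l).zero_mem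
  | succ s ih =>
    have h1 : (fun j => x l j ^ 2 - 1) ∈ N l := by
      have : (fun j => x l j ^ 2 - 1) = ∑ u ∈ range l,
          fun j => (l.choose (u + 1) : ℤ) * D l (u + 1) j := by
        funext j
        have := sq_D l 0 j
        rw [sum_range_succ'] at this
        simp only [D, add_zero, choose_zero_right, Nat.cast_one, mul_one, one_pow, one_mul,
          zero_add] at this
        rw [Finset.sum_apply, this]; simp [D]
      rw [this]
      refine sum_mem fun u _ => AddSubmonoid.subset_closure ⟨_, _, ?_, rfl⟩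
      have h2 := Nat.choose_mul (n := l + (u + 1)) (k := 2 * (u + 1)) (s := u + 1) (by omega)
      rw [show l + (u + 1) - (u + 1) = l by omega, show 2 * (u + 1) - (u + 1) = u + 1 by omega]
        at h2
      have h3 := Nat.two_dvd_centralBinom_of_one_le (n := u + 1) (by omega)
      rw [Nat.centralBinom_eq_two_mul_choose] at h3
      have : 2 ∣ l.choose (u + 1) * (l + (u + 1)).choose (u + 1) := by
        rw [mul_comm, ← h2]; exact Dvd.dvd.mul_left h3 _
      exact_mod_cast this
    have := (N l).add_mem (sq_mem l _ ih) h1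
    convert this using 1
    funext j; simp only [Pi.add_apply]; ring

lemma row_even (l J : ℕ) (f : ℕ → ℤ) (h : f ∈ N l) :
    ((J + l : ℕ) : ℤ) ∣ ∑ j ∈ range J, (2 * j + l + 1 : ℤ) * f j := by
  induction h using AddSubmonoid.closure_induction with
  | mem f h =>
    obtain ⟨g, i, hg, rfl⟩ := h
    simp only [mul_left_comm _ g, ← mul_sum, tel_even]
    have := c1 (J + l + i) i
    exact ⟨g * J.choose (i + 1) * (J + l + i).choose i, by
      push_cast at this ⊢; linear_combination (g * J.choose (i + 1) : ℤ) * this⟩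
  | zero => simp
  | add a b _ _ ha hb => simpa [mul_add, sum_add_distrib] using dvd_add ha hb

lemma row_odd (l J m : ℕ) (hm : J + l = m + 1) (f : ℕ → ℤ) (h : f ∈ N l) :
    (2 * (m + 1) : ℤ) ∣ ∑ j ∈ range J, (-1) ^ j * (2 * j + l + 1 : ℤ) * (x l j * f j) := by
  induction h using AddSubmonoid.closure_induction with
  | mem f h =>
    obtain ⟨g, i, ⟨c, hc⟩, rfl⟩ := h
    have : ∀ j : ℕ, (-1) ^ j * (2 * j + l + 1 : ℤ) * (x l j * (g * D l i j)) =
        (2 * c * (l + 2 * i).choose i) * ((-1) ^ j * (2 * j + l + 1 : ℤ) *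
          (j + l + i).choose (l + 2 * i)) := by
      intro j
      rw [mul_left_comm (x l j), x_D, ← hc]; ring
    simp only [this, ← mul_sum, tel_odd, hm]
    exact ⟨-(-1) ^ J * c * ((m + 1 + i).choose i * m.choose (l + i)), by
      linear_combination (-(-1) ^ J * 2 * c : ℤ) * odd_val l i m⟩
  | zero => simp
  | add a b _ _ ha hb => simpa [mul_add, sum_add_distrib] using dvd_add ha hb

lemma rearr (e : ℤ) (r n : ℕ) :
    ∑ k ∈ range n, e ^ k * (3 * k + 2) * ∑ j ∈ range (k + 1), (k.choose j : ℤ) ^ r =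
    2 * ∑ l ∈ range n, e ^ l * ∑ j ∈ range (n - l), e ^ j * (2 * j + l + 1) * x l j ^ r := by
  simp only [mul_sum (range (n - _))]
  rw [← Finset.sum_range_diag_flip n
    (fun l j => e ^ l * (e ^ j * (2 * j + l + 1) * x l j ^ r)), mul_sum]
  refine sum_congr rfl fun k _ => ?_
  have h1 : ∀ l ∈ range (k + 1), e ^ l * (e ^ (k - l) * (2 * ((k - l : ℕ) : ℤ) + l + 1) *
      x l (k - l) ^ r) = e ^ k * ((2 * k - l + 1) * (k.choose l : ℤ) ^ r) := by
    intro l hl
    have hl' : l ≤ k := by simpa [Nat.lt_succ_iff] using hl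
    obtain ⟨j, rfl⟩ := Nat.exists_eq_add_of_le hl'
    simp only [x, add_tsub_cancel_left, add_comm j l]; push_cast; ring
  rw [sum_congr rfl h1, ← mul_sum]
  have h2 := Finset.sum_range_reflect (fun l => (2 * k - l + 1 : ℤ) * (k.choose l : ℤ) ^ r) (k + 1)
  have h3 : ∑ l ∈ range (k + 1), (2 * k - ((k + 1 - 1 - l : ℕ) : ℤ) + 1) *
      (k.choose (k + 1 - 1 - l) : ℤ) ^ r =
      ∑ l ∈ range (k + 1), (k + l + 1 : ℤ) * (k.choose l : ℤ) ^ r := by
    refine sum_congr rfl fun l hl => ?_
    have hl' : l ≤ k := by simpa [Nat.lt_succ_iff] using hl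
    rw [Nat.add_sub_cancel, Nat.choose_symm hl', Nat.cast_sub hl']; ring
  have h4 : (3 * k + 2 : ℤ) * ∑ j ∈ range (k + 1), (k.choose j : ℤ) ^ r =
      ∑ l ∈ range (k + 1), (2 * k - l + 1 : ℤ) * (k.choose l : ℤ) ^ r +
      ∑ l ∈ range (k + 1), (k + l + 1 : ℤ) * (k.choose l : ℤ) ^ r := by
    rw [← sum_add_distrib, mul_sum]; exact sum_congr rfl fun l _ => by ring
  rw [mul_assoc, h4, ← h3, h2]; ring

theorem even_case (s n : ℕ) : (2 * n : ℤ) ∣
    ∑ k ∈ range n, (3 * k + 2) * ∑ j ∈ range (k + 1), (k.choose j : ℤ) ^ (2 * s) := by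
  have := rearr 1 (2 * s) n
  simp only [one_pow, one_mul] at this
  rw [this]
  refine mul_dvd_mul_left _ (dvd_sum fun l hl => ?_)
  have hl' := mem_range.1 hl
  have h1 := row_even l (n - l) _ (pow_mem l s)
  have h2 := tel_even l 0 (n - l)
  rw [show n - l + l = n by omega] at h1
  simp only [D, choose_zero_right, Nat.cast_one, mul_one, add_zero, zero_add, choose_one_right,
    show n - l + l = n by omega] at h2
  simp only [mul_sub, sum_sub_distrib, mul_one, h2] at h1
  exact (dvd_sub_left (by simp [← mul_assoc])).1 h1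

theorem odd_case (s m : ℕ) : ∃ c : ℤ,
    ∑ k ∈ range (m + 1), (-1) ^ k * (3 * k + 2) *
      ∑ j ∈ range (k + 1), (k.choose j : ℤ) ^ (2 * s + 1) =
      4 * (m + 1) * c + (-1) ^ m * 2 * (m + 1) * 2 ^ m := by
  rw [rearr]
  have : ∀ l ∈ range (m + 1), (2 * (m + 1) : ℤ) ∣ (-1) ^ l * ∑ j ∈ range (m + 1 - l),
      (-1) ^ j * (2 * j + l + 1) * x l j ^ (2 * s + 1) - (-1) ^ m * (m + 1) * m.choose l := by
    intro l hl
    have hl' := mem_range.1 hl
    have h1 := row_odd l (m + 1 - l) m (by omega) _ (pow_mem l s)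
    have h2 := tel_odd l 0 (m + 1 - l)
    have h3 := c2 m l
    simp only [mul_zero, add_zero, show m + 1 - l + l = m + 1 by omega, Nat.cast_zero] at h2
    have h4 : (-1 : ℤ) ^ l * (-1) ^ (m + 1 - l) = -(-1) ^ m := by
      rw [← pow_add, show l + (m + 1 - l) = m + 1 by omega, pow_succ]; ring
    have h5 : ∑ j ∈ range (m + 1 - l), (-1) ^ j * (2 * j + l + 1 : ℤ) * x l j ^ (2 * s + 1) =
        ∑ j ∈ range (m + 1 - l), (-1) ^ j * (2 * j + l + 1 : ℤ) * (x l j * (x l j ^ (2 * s) - 1))
        + ∑ j ∈ range (m + 1 - l), (-1) ^ j * (2 * j + l + 1 : ℤ) * (j + l).choose l := by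
      rw [← sum_add_distrib]; exact sum_congr rfl fun j _ => by simp only [x]; ring
    rw [h5, h2]
    obtain ⟨c, hc⟩ := h1
    rw [hc]
    exact ⟨(-1) ^ l * c, by
      linear_combination (-(l + 1) * (m + 1).choose (l + 1) : ℤ) * h4 + ((-1) ^ m : ℤ) * h3⟩
  obtain ⟨c, hc⟩ := dvd_sum this
  rw [sum_sub_distrib, ← mul_sum] at hc
  have h6 : ∑ l ∈ range (m + 1), (m.choose l : ℤ) = 2 ^ m := by
    exact_mod_cast Nat.sum_range_choose m
  rw [h6] at hc
  exact ⟨c, by linear_combination 2 * hc⟩

end Pool.Agent.H.MP_97e2c3_nt
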